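import Pool.Agent.Results.MP_12a1af_nt.AffineSystems

/-!
# MP_491344_nt: exactly which functions force unbounded representations for sets given by affine
systems

`rep A n` is the number of ordered pairs of elements of `A` with sum `n`.

A family `S i` (`i` in a finite set) of sets of natural numbers is a *solution of a finite affine
system* if `S i = F i ∪ ⋃ (q S_j + d)`, the union being taken over finitely many edges
`(i, j, q, d)`, where the `F i` are finite and the multipliers `q ≥ 2` may all be different.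
`AffineSet A`: `A` is a finite union of sets of such a solution. All automatic sets are of this kind,
and the sets generated by finitely many maps `x ↦ q x + d` with different multipliers.

Let `g` be a function which is positive at all large integers.

1. `g` forces unbounded representations inside the class of these sets if and only if for every `k`
   the quotient `√N / (g(N) (log N) ^ k)` is unbounded.
2. In this case one has even `r_B(n) ≥ n ^ c` for some `c > 0` and infinitely many `n`, for every set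
   `B` which contains a set `A` of the class with `|A ∩ [1, N]| ≫ √N / g(N)`.

So inside this class the question of Erdős about all functions which force unbounded representations
has a complete answer. The counterexamples in 1 are the sets of the sums of `k` powers of two.
-/

set_option autoImplicit false

open Filter Finset

namespace Pool.Agent.Results.MP_491344_nt.AffineSystemThresholds

/-- `r_A(n)`: the number of ordered pairs of elements of `A` with sum `n` -/
noncomputable def rep (A : Set ℕ) (n : ℕ) : ℕ :=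
  {p : ℕ × ℕ | p.1 ∈ A ∧ p.2 ∈ A ∧ p.1 + p.2 = n}.ncard

/-- `|A ∩ [1, N]| ≫ √N / g(N)` -/
def Dense (g : ℕ → ℝ) (A : Set ℕ) : Prop :=
  ∃ C : ℝ, 0 < C ∧ ∀ᶠ N : ℕ in atTop,
    Real.sqrt (N : ℝ) / g N ≤ C * ((A ∩ Set.Icc 1 N).ncard : ℝ)

/-- `g` forces unbounded representations inside the class `𝒞` -/
def ForcesIn (𝒞 : Set ℕ → Prop) (g : ℕ → ℝ) : Prop :=
  ∀ A : Set ℕ, 𝒞 A → Dense g A → ∀ K : ℕ, ∃ n, K < rep A n

/-- `S i = F i ∪ ⋃ (q S_j + d)`, the union over all edges `(i, j, q, d)` in `E`. -/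
def IsSolution {ι : Type} (E : Finset (ι × ι × ℕ × ℤ)) (F : ι → Finset ℕ) (S : ι → Set ℕ) : Prop :=
  (∀ i, ∀ x ∈ F i, x ∈ S i) ∧
  (∀ i j q d, (i, j, q, d) ∈ E → ∀ y ∈ S j, ∃ x ∈ S i, (x : ℤ) = q * y + d) ∧
  (∀ i, ∀ x ∈ S i, x ∈ F i ∨ ∃ j q d, (i, j, q, d) ∈ E ∧ ∃ y ∈ S j, (x : ℤ) = q * y + d)

/-- `A` is a finite union of sets of a solution of a finite affine system, all multipliers being at
least `2` -/
def AffineSet (A : Set ℕ) : Prop :=
  ∃ (m : ℕ) (E : Finset (Fin m × Fin m × ℕ × ℤ)) (F : Fin m → Finset ℕ) (S : Fin m → Set ℕ)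
    (I : Set (Fin m)), (∀ i j q d, (i, j, q, d) ∈ E → 2 ≤ q) ∧ IsSolution E F S ∧
      A = ⋃ i ∈ I, S i

/-! ### Sums of `k` powers of two -/

/-- the sum of the powers of two with exponents in `s` -/
def val (s : Multiset ℕ) : ℕ := (s.map (fun e => 2 ^ e)).sum

lemma val_cons (a : ℕ) (s : Multiset ℕ) : val (a ::ₘ s) = 2 ^ a + val s := by
  simp [val]

lemma val_add (s t : Multiset ℕ) : val (s + t) = val s + val t := by
  simp [val]

/-- sums of `k` powers of two -/
def PS (k : ℕ) : Set ℕ := {x | ∃ s : Multiset ℕ, s.card = k ∧ val s = x}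

lemma split (s : Multiset ℕ) : ∃ i ≤ s.card, ∃ y ∈ PS i, val s + i = 2 * y + s.card := by
  induction s using Multiset.induction_on with
  | empty => exact ⟨0, le_rfl, 0, ⟨0, by simp, by simp [val]⟩, by simp [val]⟩
  | cons a s ih =>
    obtain ⟨i, hi, y, ⟨t, ht, hty⟩, hy⟩ := ih
    rcases a with _ | b
    · refine ⟨i, by rw [Multiset.card_cons]; omega, y, ⟨t, ht, hty⟩, ?_⟩
      rw [val_cons, Multiset.card_cons]
      simp only [pow_zero]
      omega
    · refine ⟨i + 1, by rw [Multiset.card_cons]; omega, y + 2 ^ b, ⟨b ::ₘ t, ?_, ?_⟩, ?_⟩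
      · rw [Multiset.card_cons, ht]
      · rw [val_cons, hty, add_comm]
      · rw [val_cons, Multiset.card_cons, pow_succ]
        omega

lemma join {i j y : ℕ} (hij : i ≤ j) (hy : y ∈ PS i) : 2 * y + (j - i) ∈ PS j := by
  obtain ⟨s, hs, rfl⟩ := hy
  refine ⟨s.map (· + 1) + Multiset.replicate (j - i) 0, ?_, ?_⟩
  · simp [hs]; omega
  · rw [val_add]
    have h1 : val (s.map (· + 1)) = 2 * val s := by
      simp only [val, Multiset.map_map, Function.comp_def, pow_succ]
      rw [Multiset.sum_map_mul_right, mul_comm]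
    have h2 : val (Multiset.replicate (j - i) 0) = j - i := by
      simp [val]
    rw [h1, h2]

lemma affine_PS (k : ℕ) : AffineSet (PS k) := by
  classical
  refine ⟨k + 1, ((Finset.univ : Finset (Fin (k + 1) × Fin (k + 1))).filter
    (fun p => p.2 ≤ p.1)).image (fun p => (p.1, p.2, 2, ((p.1 : ℕ) : ℤ) - ((p.2 : ℕ) : ℤ))),
    fun i => if (i : ℕ) = 0 then {0} else ∅, fun i => PS i, {Fin.last k}, ?_, ⟨?_, ?_, ?_⟩, ?_⟩
  · intro i j q d h
    simp only [Finset.mem_image, Finset.mem_filter, Finset.mem_univ, true_and, Prod.mk.injEq,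
      Prod.exists] at h
    obtain ⟨a, b, -, -, -, rfl, -⟩ := h
    exact le_rfl
  · intro i x hx
    by_cases hi : (i : ℕ) = 0
    · simp only [hi, if_true, Finset.mem_singleton] at hx
      subst hx
      refine ⟨0, by simp [hi], by simp [val]⟩
    · simp [hi] at hx
  · intro i j q d h y hy
    simp only [Finset.mem_image, Finset.mem_filter, Finset.mem_univ, true_and, Prod.mk.injEq,
      Prod.exists] at h
    obtain ⟨a, b, hba, rfl, rfl, rfl, rfl⟩ := h
    have hba' : (b : ℕ) ≤ (a : ℕ) := hba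
    refine ⟨_, join hba' hy, ?_⟩
    push_cast [Nat.cast_sub hba']
    ring
  · rintro i x ⟨s, hs, rfl⟩
    right
    obtain ⟨j, hj, y, hy, hxy⟩ := split s
    have hjk : j < k + 1 := by have := i.2; omega
    refine ⟨⟨j, hjk⟩, 2, ((i : ℕ) : ℤ) - (j : ℤ), ?_, y, hy, ?_⟩
    · simp only [Finset.mem_image, Finset.mem_filter, Finset.mem_univ, true_and, Prod.mk.injEq,
        Prod.exists]
      refine ⟨i, ⟨j, hjk⟩, ?_, rfl, rfl, rfl⟩
      show j ≤ (i : ℕ)
      omega
    · rw [hs] at hxy
      push_cast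
      have : ((val s + j : ℕ) : ℤ) = ((2 * y + (i : ℕ) : ℕ) : ℤ) := by rw [hxy]
      push_cast at this
      linarith
  · simp

/-- boundedly many multisets of `m` exponents have the sum `n` -/
lemma few_multisets (m : ℕ) : ∃ C : ℕ, ∀ n : ℕ, ∃ T : Finset (Multiset ℕ), T.card ≤ C ∧
    ∀ s : Multiset ℕ, s.card = m → val s = n → s ∈ T := by
  classical
  induction m with
  | zero =>
    refine ⟨1, fun n => ⟨{0}, by simp, ?_⟩⟩
    intro s hs _
    rw [Multiset.card_eq_zero] at hs
    simp [hs]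
  | succ m ih =>
    obtain ⟨C, hC⟩ := ih
    choose T hT1 hT2 using hC
    refine ⟨(m + 1) * C, fun n => ?_⟩
    by_cases hex : ∃ v : ℕ, n ≤ (m + 1) * 2 ^ v
    · set v0 := Nat.find hex with hv0
      have hv0s : n ≤ (m + 1) * 2 ^ v0 := Nat.find_spec hex
      refine ⟨(Finset.Icc v0 (v0 + m)).biUnion (fun v => (T (n - 2 ^ v)).image (fun s => v ::ₘ s)),
        ?_, ?_⟩
      · refine (Finset.card_biUnion_le_card_mul _ _ C ?_).trans ?_
        · intro v _
          exact Finset.card_image_le.trans (hT1 _)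
        · rw [Nat.card_Icc]
          exact Nat.mul_le_mul_right _ (by omega)
      · intro s hs hsn
        have hne : s ≠ 0 := by
          intro h
          rw [h] at hs
          simp at hs
        obtain ⟨v, hv, hmax⟩ : ∃ v ∈ s, ∀ u ∈ s, u ≤ v := by
          have h1 : s.toFinset.Nonempty := by
            rw [Multiset.toFinset_nonempty]; exact hne
          refine ⟨s.toFinset.max' h1, ?_, ?_⟩
          · rw [← Multiset.mem_toFinset]; exact Finset.max'_mem _ _
          · intro u hu
            exact Finset.le_max' _ _ (Multiset.mem_toFinset.2 hu)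
        obtain ⟨t, rfl⟩ := Multiset.exists_cons_of_mem hv
        have h2 : n ≤ (m + 1) * 2 ^ v := by
          rw [← hsn]
          have h3 : ∀ x ∈ (v ::ₘ t).map (fun e => 2 ^ e), x ≤ 2 ^ v := by
            intro x hx
            rw [Multiset.mem_map] at hx
            obtain ⟨u, hu, rfl⟩ := hx
            exact Nat.pow_le_pow_right (by norm_num) (hmax u hu)
          have h4 := Multiset.sum_le_card_nsmul _ _ h3
          rw [Multiset.card_map, hs, smul_eq_mul] at h4
          exact h4
        have h3 : v0 ≤ v := Nat.find_min' hex h2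
        rw [val_cons] at hsn
        have h4 : v ≤ v0 + m := by
          have h5 : 2 ^ v ≤ 2 ^ (v0 + m) := by
            calc 2 ^ v ≤ n := by omega
              _ ≤ (m + 1) * 2 ^ v0 := hv0s
              _ ≤ 2 ^ m * 2 ^ v0 := Nat.mul_le_mul_right _ (Nat.lt_two_pow_self)
              _ = 2 ^ (v0 + m) := by rw [← pow_add, add_comm]
          exact (Nat.pow_le_pow_iff_right (by norm_num)).1 h5
        rw [Finset.mem_biUnion]
        refine ⟨v, Finset.mem_Icc.2 ⟨h3, h4⟩, Finset.mem_image_of_mem _ ?_⟩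
        refine hT2 _ t ?_ (by omega)
        rw [Multiset.card_cons] at hs
        omega
    · exact absurd ⟨n, by
        have : n < 2 ^ n := Nat.lt_two_pow_self
        nlinarith⟩ hex

lemma rep_PS (k : ℕ) : ∃ M : ℕ, ∀ n, rep (PS k) n ≤ M := by
  classical
  obtain ⟨C, hC⟩ := few_multisets (k + k)
  refine ⟨C * 2 ^ (k + k), fun n => ?_⟩
  obtain ⟨T, hT1, hT2⟩ := hC n
  set U := (T.filter (fun s => s.card = k + k)).biUnion (fun s => s.powerset.toFinset) with hU
  have hsub : {p : ℕ × ℕ | p.1 ∈ PS k ∧ p.2 ∈ PS k ∧ p.1 + p.2 = n} ⊆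
      ((U.image (fun t => (val t, n - val t)) : Finset (ℕ × ℕ)) : Set (ℕ × ℕ)) := by
    rintro ⟨a, b⟩ ⟨⟨s, hs, hsa⟩, ⟨t, ht, htb⟩, hab⟩
    simp only at hsa htb hab
    rw [Finset.mem_coe, Finset.mem_image]
    refine ⟨s, ?_, ?_⟩
    · rw [hU, Finset.mem_biUnion]
      refine ⟨s + t, ?_, ?_⟩
      · rw [Finset.mem_filter]
        have hc : (s + t).card = k + k := by rw [Multiset.card_add, hs, ht]
        exact ⟨hT2 _ hc (by rw [val_add]; omega), hc⟩
      · rw [Multiset.mem_toFinset, Multiset.mem_powerset]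
        exact Multiset.le_add_right s t
    · rw [hsa]
      ext
      · rfl
      · simp only; omega
  refine (Set.ncard_le_ncard hsub (Finset.finite_toSet _)).trans ?_
  rw [Set.ncard_coe_finset]
  refine Finset.card_image_le.trans ?_
  refine (Finset.card_biUnion_le_card_mul _ _ (2 ^ (k + k)) ?_).trans ?_
  · intro s hs
    rw [Finset.mem_filter] at hs
    refine (Multiset.toFinset_card_le _).trans ?_
    rw [Multiset.card_powerset, hs.2]
  · exact Nat.mul_le_mul_right _ ((Finset.card_filter_le _ _).trans hT1)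

lemma count_PS (k : ℕ) : ∃ c : ℝ, 0 < c ∧ ∀ᶠ N : ℕ in atTop,
    c * Real.log N ^ k ≤ ((PS (k + 1) ∩ Set.Icc 1 N).ncard : ℝ) := by
  classical
  refine ⟨1 / (2 ^ (k + 1) * (Nat.factorial (k + 1) : ℝ)), by positivity, ?_⟩
  have hlog : ∀ᶠ N : ℕ in atTop, (2 * (k + 1 : ℝ)) ≤ Real.log N :=
    (Real.tendsto_log_atTop.comp tendsto_natCast_atTop_atTop).eventually_ge_atTop _
  filter_upwards [hlog, eventually_ge_atTop 1] with N hN hN1
  set m := Nat.log 2 N with hm
  have h1 : 2 ^ m ≤ N := Nat.pow_log_le_self 2 (by omega)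
  have h2 : N < 2 ^ (m + 1) := Nat.lt_pow_succ_log_self (by norm_num) N
  have h3 : Real.log N ≤ m + 1 := by
    have h4 : (N : ℝ) ≤ 2 ^ (m + 1) := by exact_mod_cast h2.le
    have h5 : Real.log N ≤ Real.log (2 ^ (m + 1)) :=
      Real.log_le_log (by exact_mod_cast hN1) h4
    rw [Real.log_pow] at h5
    have h6 : Real.log 2 ≤ 1 := by
      have := Real.log_two_lt_d9; linarith
    push_cast at h5
    nlinarith [Nat.cast_nonneg (α := ℝ) m]
  have hsub : (((powersetCard (k + 1) (range m)).image (fun s => ∑ i ∈ s, 2 ^ i) : Finset ℕ) :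
      Set ℕ) ⊆ PS (k + 1) ∩ Set.Icc 1 N := by
    intro x hx
    rw [Finset.mem_coe, Finset.mem_image] at hx
    obtain ⟨s, hs, rfl⟩ := hx
    rw [mem_powersetCard] at hs
    refine ⟨⟨s.val, hs.2, rfl⟩, ?_, ?_⟩
    · have hne : s.Nonempty := by rw [← Finset.card_pos]; omega
      obtain ⟨i, hi⟩ := hne
      calc 1 ≤ 2 ^ i := Nat.one_le_two_pow
        _ ≤ ∑ i ∈ s, 2 ^ i := Finset.single_le_sum (f := fun i => 2 ^ i) (fun _ _ => by positivity) hi
    · have := Nat.geomSum_lt (m := 2) (n := m) (s := s) le_rfl (fun i hi => Finset.mem_range.1 (hs.1 hi))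
      omega
  have hfin : (PS (k + 1) ∩ Set.Icc 1 N).Finite := (Set.finite_Icc 1 N).subset Set.inter_subset_right
  have h4 := Set.ncard_le_ncard hsub hfin
  rw [Set.ncard_coe_finset, Finset.card_image_of_injective _ (Finset.geomSum_injective le_rfl),
    card_powersetCard, card_range] at h4
  have h5 : ((m + 1 - (k + 1) : ℕ) : ℝ) ^ (k + 1) / (Nat.factorial (k + 1) : ℝ) ≤
      (m.choose (k + 1) : ℝ) := Nat.pow_le_choose (k + 1) m
  have h6 : Real.log N / 2 ≤ ((m + 1 - (k + 1) : ℕ) : ℝ) := by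
    have h7 : (2 * (k + 1) : ℝ) ≤ m + 1 := hN.trans h3
    have h8 : 2 * (k + 1) ≤ m + 1 := by exact_mod_cast h7
    rw [Nat.cast_sub (by omega)]
    push_cast
    linarith
  have hlog0 : 0 ≤ Real.log N := Real.log_nonneg (by exact_mod_cast hN1)
  have hlog1 : 1 ≤ Real.log N := by
    have : (0 : ℝ) ≤ k := Nat.cast_nonneg k
    linarith
  calc 1 / (2 ^ (k + 1) * (Nat.factorial (k + 1) : ℝ)) * Real.log N ^ k
      ≤ 1 / (2 ^ (k + 1) * (Nat.factorial (k + 1) : ℝ)) * Real.log N ^ (k + 1) := by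
        refine mul_le_mul_of_nonneg_left ?_ (by positivity)
        exact pow_le_pow_right₀ hlog1 (by omega)
    _ = (Real.log N / 2) ^ (k + 1) / (Nat.factorial (k + 1) : ℝ) := by
        rw [div_pow]; field_simp
    _ ≤ ((m + 1 - (k + 1) : ℕ) : ℝ) ^ (k + 1) / (Nat.factorial (k + 1) : ℝ) := by
        refine div_le_div_of_nonneg_right ?_ (by positivity)
        exact pow_le_pow_left₀ (by positivity) h6 _
    _ ≤ (m.choose (k + 1) : ℝ) := h5
    _ ≤ _ := by exact_mod_cast h4

/-! ### The criterion -/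

/-- `√N / (g(N) (log N) ^ k)` is unbounded for every `k` -/
def Criterion (g : ℕ → ℝ) : Prop :=
  ∀ (k : ℕ) (C : ℝ), ∃ᶠ N : ℕ in atTop, C * Real.log N ^ k * g N ≤ Real.sqrt N

lemma growth {g : ℕ → ℝ} (hg : ∀ᶠ N : ℕ in atTop, 0 < g N) (hcr : Criterion g)
    {A : Set ℕ} (hA : AffineSet A) (hD : Dense g A) {B : Set ℕ} (hAB : A ⊆ B) :
    ∃ c : ℝ, 0 < c ∧ ∀ N₀ : ℕ, ∃ n : ℕ, N₀ ≤ n ∧ (n : ℝ) ^ c ≤ (rep B n : ℝ) := by
  classical
  obtain ⟨m, E, F, S, I, hE, hS, rfl⟩ := hA
  have hS' : Pool.Agent.Results.MP_12a1af_nt.AffineSystems.IsSolution E F S := hS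
  by_cases hall : ∀ i ∈ I, ∃ (C : ℝ) (k : ℕ), ∀ N : ℕ,
      ((S i ∩ Set.Iic N).ncard : ℝ) ≤ C * Real.log (N + 2) ^ k
  · exfalso
    have hall' : ∀ i : Fin m, ∃ (C : ℝ) (k : ℕ), i ∈ I → ∀ N : ℕ,
        ((S i ∩ Set.Iic N).ncard : ℝ) ≤ C * Real.log (N + 2) ^ k := by
      intro i
      by_cases hi : i ∈ I
      · obtain ⟨C, k, h⟩ := hall i hi
        exact ⟨C, k, fun _ => h⟩
      · exact ⟨0, 0, fun h => absurd h hi⟩
    choose C k hCk using hall'
    set K := ∑ i, k i with hK
    set D := ∑ i, |C i| with hDd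
    have hD0 : 0 ≤ D := Finset.sum_nonneg fun i _ => abs_nonneg _
    have hcount : ∀ N : ℕ, 2 ≤ N → (((⋃ i ∈ I, S i) ∩ Set.Icc 1 N).ncard : ℝ) ≤
        D * 2 ^ K * Real.log N ^ K := by
      intro N hN
      have hNr : (2 : ℝ) ≤ N := by exact_mod_cast hN
      have hl1 : 1 ≤ Real.log ((N : ℝ) + 2) := by
        have h1 : Real.exp 1 ≤ (N : ℝ) + 2 := by
          have := Real.exp_one_lt_d9; linarith
        calc (1 : ℝ) = Real.log (Real.exp 1) := (Real.log_exp 1).symm
          _ ≤ _ := Real.log_le_log (Real.exp_pos 1) h1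
      have hl2 : Real.log ((N : ℝ) + 2) ≤ 2 * Real.log N := by
        have h1 : (N : ℝ) + 2 ≤ (N : ℝ) ^ 2 := by nlinarith
        have h2 := Real.log_le_log (by linarith : (0 : ℝ) < (N : ℝ) + 2) h1
        rw [Real.log_pow] at h2
        exact_mod_cast h2
      have hsub : (⋃ i ∈ I, S i) ∩ Set.Icc 1 N ⊆
          ⋃ i ∈ (Finset.univ.filter (fun i => i ∈ I) : Finset (Fin m)), (S i ∩ Set.Iic N) := by
        rintro x ⟨hx, hx2⟩
        simp only [Set.mem_iUnion] at hx
        obtain ⟨i, hi, hxi⟩ := hx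
        simp only [Set.mem_iUnion]
        exact ⟨i, by simp [hi], hxi, hx2.2⟩
      have hfin : (⋃ i ∈ (Finset.univ.filter (fun i => i ∈ I) : Finset (Fin m)),
          (S i ∩ Set.Iic N)).Finite := by
        refine (Set.finite_Iic N).subset ?_
        intro x hx
        simp only [Set.mem_iUnion] at hx
        obtain ⟨i, -, hxi⟩ := hx
        exact hxi.2
      have h1 : (((⋃ i ∈ I, S i) ∩ Set.Icc 1 N).ncard : ℝ) ≤
          ∑ i ∈ Finset.univ.filter (fun i => i ∈ I), ((S i ∩ Set.Iic N).ncard : ℝ) := by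
        have h2 := (Set.ncard_le_ncard hsub hfin).trans
          (Finset.set_ncard_biUnion_le (Finset.univ.filter (fun i => i ∈ I))
            (fun i => S i ∩ Set.Iic N))
        exact_mod_cast h2
      refine h1.trans ?_
      have h3 : ∀ i ∈ Finset.univ.filter (fun i => i ∈ I), ((S i ∩ Set.Iic N).ncard : ℝ) ≤
          |C i| * (2 ^ K * Real.log N ^ K) := by
        intro i hi
        have hi' : i ∈ I := (Finset.mem_filter.1 hi).2
        refine (hCk i hi' N).trans ?_
        have h4 : Real.log ((N : ℝ) + 2) ^ k i ≤ 2 ^ K * Real.log N ^ K := by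
          calc Real.log ((N : ℝ) + 2) ^ k i ≤ Real.log ((N : ℝ) + 2) ^ K := by
                refine pow_le_pow_right₀ hl1 ?_
                exact Finset.single_le_sum (f := k) (fun _ _ => Nat.zero_le _) (Finset.mem_univ i)
            _ ≤ (2 * Real.log N) ^ K := pow_le_pow_left₀ (by linarith) hl2 _
            _ = 2 ^ K * Real.log N ^ K := mul_pow _ _ _
        calc C i * Real.log ((N : ℝ) + 2) ^ k i ≤ |C i| * Real.log ((N : ℝ) + 2) ^ k i :=
              mul_le_mul_of_nonneg_right (le_abs_self _) (by positivity)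
          _ ≤ |C i| * (2 ^ K * Real.log N ^ K) :=
              mul_le_mul_of_nonneg_left h4 (abs_nonneg _)
      have hnn : 0 ≤ 2 ^ K * Real.log N ^ K := by
        have : 0 ≤ Real.log N := Real.log_nonneg (by linarith)
        positivity
      calc ∑ i ∈ Finset.univ.filter (fun i => i ∈ I), ((S i ∩ Set.Iic N).ncard : ℝ)
          ≤ ∑ i ∈ Finset.univ.filter (fun i => i ∈ I), |C i| * (2 ^ K * Real.log N ^ K) :=
            Finset.sum_le_sum h3
        _ ≤ ∑ i, |C i| * (2 ^ K * Real.log N ^ K) :=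
            Finset.sum_le_sum_of_subset_of_nonneg (Finset.filter_subset _ _)
              (fun i _ _ => mul_nonneg (abs_nonneg _) hnn)
        _ = D * 2 ^ K * Real.log N ^ K := by rw [← Finset.sum_mul, mul_assoc]
    obtain ⟨C0, hC0, hdense⟩ := hD
    have hfr := hcr K (C0 * (D * 2 ^ K) + 1)
    have hev : ∀ᶠ N : ℕ in atTop, ¬ ((C0 * (D * 2 ^ K) + 1) * Real.log N ^ K * g N ≤
        Real.sqrt N) := by
      filter_upwards [hg, hdense, eventually_ge_atTop 2] with N h1 h2 h3 h4
      have h5 := hcount N h3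
      have hlp : 0 < Real.log N := Real.log_pos (by exact_mod_cast (by omega : 1 < N))
      rw [div_le_iff₀ h1] at h2
      have h6 : Real.sqrt N ≤ C0 * (D * 2 ^ K * Real.log N ^ K) * g N :=
        h2.trans (mul_le_mul_of_nonneg_right (mul_le_mul_of_nonneg_left h5 hC0.le) h1.le)
      have h7 : 0 < Real.log N ^ K * g N := by positivity
      nlinarith
    exact hfr (hev.mono fun N h => h)
  · push Not at hall
    obtain ⟨i, hi, hbad⟩ := hall
    rcases Pool.Agent.Results.MP_12a1af_nt.AffineSystems.dichotomy hE hS' i with h1 | h1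
    · obtain ⟨C, k, h2⟩ := h1
      obtain ⟨N, hN⟩ := hbad C k
      exact absurd (h2 N) (not_le.2 hN)
    · refine h1 B (fun x hx => hAB ?_)
      simp only [Set.mem_iUnion]
      exact ⟨i, hi, hx⟩

/-- **Thresholds inside the class of sets given by finite affine systems.** -/
theorem result (g : ℕ → ℝ) (hg : ∀ᶠ N : ℕ in atTop, 0 < g N) :
    -- 1. exactly which functions force unbounded representations inside the class
    (ForcesIn AffineSet g ↔
      ∀ (k : ℕ) (C : ℝ), ∃ᶠ N : ℕ in atTop, C * Real.log N ^ k * g N ≤ Real.sqrt N) ∧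
    -- 2. strong form
    (ForcesIn AffineSet g → ∀ A B : Set ℕ, AffineSet A → A ⊆ B → Dense g A →
      ∃ c : ℝ, 0 < c ∧ ∀ N₀ : ℕ, ∃ n : ℕ, N₀ ≤ n ∧ (n : ℝ) ^ c ≤ (rep B n : ℝ)) := by
  have hiff : ForcesIn AffineSet g ↔ Criterion g := by
    constructor
    · intro hF
      by_contra hcr
      unfold Criterion at hcr
      push Not at hcr
      obtain ⟨k, C, hkC⟩ := hcr
      obtain ⟨M, hM⟩ := rep_PS (k + 1)
      obtain ⟨c, hc, hcount⟩ := count_PS k
      have hD : Dense g (PS (k + 1)) := by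
        refine ⟨(|C| + 1) / c, by positivity, ?_⟩
        filter_upwards [hkC, hcount, hg, eventually_ge_atTop 1] with N h1 h2 h3 h4
        rw [div_le_iff₀ h3]
        have hl : 0 ≤ Real.log N := Real.log_nonneg (by exact_mod_cast h4)
        have h5 : C * Real.log N ^ k ≤ (|C| + 1) / c *
            ((PS (k + 1) ∩ Set.Icc 1 N).ncard : ℝ) := by
          calc C * Real.log N ^ k ≤ (|C| + 1) * Real.log N ^ k :=
                mul_le_mul_of_nonneg_right ((le_abs_self C).trans (by linarith)) (by positivity)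
            _ = (|C| + 1) / c * (c * Real.log N ^ k) := by field_simp
            _ ≤ _ := mul_le_mul_of_nonneg_left h2 (by positivity)
        exact h1.le.trans (mul_le_mul_of_nonneg_right h5 h3.le)
      obtain ⟨n, hn⟩ := hF _ (affine_PS (k + 1)) hD M
      exact absurd (hM n) (not_le.2 hn)
    · intro hcr A hA hD K
      obtain ⟨c, hc, h⟩ := growth hg hcr hA hD (le_refl A)
      have h1 : Tendsto (fun n : ℕ => (n : ℝ) ^ c) atTop atTop :=
        (tendsto_rpow_atTop hc).comp tendsto_natCast_atTop_atTop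
      obtain ⟨N₁, hN₁⟩ := eventually_atTop.1 (h1.eventually_gt_atTop (K : ℝ))
      obtain ⟨n, hn, h2⟩ := h N₁
      exact ⟨n, by exact_mod_cast (hN₁ n hn).trans_le h2⟩
  exact ⟨hiff, fun hF A B hA hAB hD => growth hg (hiff.1 hF) hA hD hAB⟩

end Pool.Agent.Results.MP_491344_nt.AffineSystemThresholds
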