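import Pool.Agent.Results.MP_12a1af_nt.AutomaticHosts

/-!
# MP_491344_nt: thresholds for sets with many elements in a thin automatic set

`rep A n` is the number of ordered pairs of elements of `A` with sum `n`, and `count S N` is the
number of elements of `S` up to `N`.

For every base `b` and every number `w` of states there is `δ > 0` with the following property.
Consider the class (`Hosted b w δ`) of all sets `A` for which there is an automatic set `S`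
(recognised by an automaton with `w` states from the digits in base `b`) such that, for arbitrarily
large `N`, `S` has at most `N ^ (1/2 + δ)` elements up to `N` and contains at least the proportion
`N ^ (-δ)` of the elements of `A` up to `N`. The elements of `A` in `S` can be chosen in any way, and
nothing is assumed about the other elements.

1. Every `g` with `0 < g(N) ≤ N ^ δ` for all large `N` forces unbounded representations inside this
   class.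
2. Even `r_A(n) ≥ n ^ δ` for infinitely many `n`, for every `A` in the class with
   `|A ∩ [1, N]| ≫ √N / g(N)`.
-/

set_option autoImplicit false

open Filter

namespace Pool.Agent.Results.MP_491344_nt.AutomaticHostThresholds

/-- `r_A(n)`: the number of ordered pairs of elements of `A` with sum `n` -/
noncomputable def rep (A : Set ℕ) (n : ℕ) : ℕ :=
  {p : ℕ × ℕ | p.1 ∈ A ∧ p.2 ∈ A ∧ p.1 + p.2 = n}.ncard

/-- `|A ∩ [1, N]| ≫ √N / g(N)` -/
def Dense (g : ℕ → ℝ) (A : Set ℕ) : Prop :=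
  ∃ C : ℝ, 0 < C ∧ ∀ᶠ N : ℕ in atTop,
    Real.sqrt (N : ℝ) / g N ≤ C * ((A ∩ Set.Icc 1 N).ncard : ℝ)

/-- `g` forces unbounded representations inside the class `𝒞` -/
def ForcesIn (𝒞 : Set ℕ → Prop) (g : ℕ → ℝ) : Prop :=
  ∀ A : Set ℕ, 𝒞 A → Dense g A → ∀ K : ℕ, ∃ n, K < rep A n

/-- `count S N`: the number of elements of `S` up to `N`. -/
noncomputable def count (S : Set ℕ) (N : ℕ) : ℕ := {x : ℕ | x ∈ S ∧ x ≤ N}.ncard

/-- `S` is recognised by a deterministic automaton with `w` states which reads the digits in base `b`,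
the least significant digit first. -/
def Automatic (b w : ℕ) (S : Set ℕ) : Prop :=
  ∃ (δ : Fin w → ℕ → Fin w) (q₀ : Fin w) (F : Set (Fin w)),
    ∀ x, x ∈ S ↔ (Nat.digits b x).foldl δ q₀ ∈ F

/-- for arbitrarily large `N` at least the proportion `N ^ (-δ)` of the elements of `A` up to `N` lies
in `S`, an automatic set which does not depend on `N` and has at most `N ^ (1/2 + δ)` elements up to
`N` -/
def Hosted (b w : ℕ) (δ : ℝ) (A : Set ℕ) : Prop :=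
  ∃ S : Set ℕ, Automatic b w S ∧ ∃ᶠ N : ℕ in atTop,
    (count S N : ℝ) ≤ (N : ℝ) ^ (1 / 2 + δ : ℝ) ∧
      (N : ℝ) ^ (-δ) * count A N ≤ count (A ∩ S) N

theorem strong (b w : ℕ) (hb : 2 ≤ b) : ∃ δ : ℝ, 0 < δ ∧ ∀ g : ℕ → ℝ,
    (∀ᶠ N : ℕ in atTop, 0 < g N ∧ g N ≤ (N : ℝ) ^ δ) → ∀ A : Set ℕ, Hosted b w δ A → Dense g A →
      ∀ M : ℕ, ∃ n ≥ M, (n : ℝ) ^ δ ≤ rep A n := by
  obtain ⟨δ₀, hδ₀, C, hC, H⟩ :=
    (Pool.Agent.Results.MP_12a1af_nt.AutomaticHosts.result b w hb).1 (1 / 8) (by norm_num)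
  set δ := min δ₀ 1 / 16 with hδ
  have hm0 : 0 < min δ₀ 1 := lt_min hδ₀ one_pos
  have hd0 : 0 < δ := by positivity
  have hd1 : 16 * δ ≤ δ₀ := by rw [hδ]; have := min_le_left δ₀ 1; linarith
  have hd2 : 16 * δ ≤ 1 := by rw [hδ]; have := min_le_right δ₀ 1; linarith
  refine ⟨δ, hd0, ?_⟩
  rintro g hg A ⟨S, hS, hfr⟩ ⟨C', hC', hdense⟩ M
  by_contra hcon
  push Not at hcon
  -- a bound for all values
  obtain ⟨R, hR⟩ : ∃ R : ℕ, ∀ n < M, rep A n ≤ R := by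
    refine ⟨∑ n ∈ Finset.range M, rep A n, fun n hn => ?_⟩
    exact Finset.single_le_sum (f := fun n => rep A n) (fun _ _ => Nat.zero_le _)
      (Finset.mem_range.2 hn)
  have ht : Tendsto (fun N : ℕ => (N : ℝ) ^ δ) atTop atTop :=
    (tendsto_rpow_atTop hd0).comp tendsto_natCast_atTop_atTop
  obtain ⟨N, ⟨h1, h2⟩, ⟨hg0, hg1⟩, h3, h4, hN1⟩ :=
    (hfr.and_eventually (hg.and (hdense.and ((ht.eventually_ge_atTop
      (2 * (C' * C * (R + 4)) + 1)).and (eventually_ge_atTop 1))))).exists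
  have hNpos : (0 : ℝ) < N := by exact_mod_cast hN1
  have hN1r : (1 : ℝ) ≤ N := by exact_mod_cast hN1
  set K := ⌊((2 * N : ℕ) : ℝ) ^ δ⌋₊ + R with hK
  have hrep : ∀ n ≤ 2 * N, Pool.Agent.Results.MP_12a1af_nt.AutomaticHosts.rep A n ≤ K := by
    intro n hn
    change rep A n ≤ K
    by_cases hnM : n < M
    · exact (hR n hnM).trans (by omega)
    · have h5 := (hcon n (by omega)).le
      have h6 : (n : ℝ) ^ δ ≤ ((2 * N : ℕ) : ℝ) ^ δ :=
        Real.rpow_le_rpow (Nat.cast_nonneg n) (by exact_mod_cast hn) hd0.le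
      have h7 : rep A n ≤ ⌊((2 * N : ℕ) : ℝ) ^ δ⌋₊ := Nat.le_floor (h5.trans h6)
      omega
  have h5 := H K A S (fun x => x) 0 N N hrep hS (fun k a r _ => rfl) hN1
  have hhits : Pool.Agent.Results.MP_12a1af_nt.AutomaticHosts.hits A S (fun x => x) 0 N N =
      count (A ∩ S) N := by
    unfold Pool.Agent.Results.MP_12a1af_nt.AutomaticHosts.hits count
    congr 1
    ext y
    constructor
    · rintro ⟨hy1, hy2, x, hx1, -, hx3⟩
      simp only [zero_add] at hx3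
      subst hx3
      exact ⟨⟨hy1, hx1⟩, hy2⟩
    · rintro ⟨⟨hy1, hy2⟩, hy3⟩
      exact ⟨hy1, hy3, y, hy2, hy3, by simp⟩
  rw [hhits] at h5
  change (count (A ∩ S) N : ℝ) ≤ C * K * ((N : ℝ) ^ (-δ₀) * count S N + (N : ℝ) ^ (1 / 8 : ℝ)) at h5
  -- the number of elements of `A`
  have hcount : ((A ∩ Set.Icc 1 N).ncard : ℝ) ≤ count A N := by
    have : (A ∩ Set.Icc 1 N).ncard ≤ count A N := by
      refine Set.ncard_le_ncard ?_ ((Set.finite_Iic N).subset fun x hx => hx.2)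
      rintro x ⟨hx1, hx2⟩
      exact ⟨hx1, hx2.2⟩
    exact_mod_cast this
  have e1 : (N : ℝ) ^ (1 / 2 - δ : ℝ) ≤ C' * count A N := by
    have h6 : Real.sqrt N / (N : ℝ) ^ δ ≤ Real.sqrt N / g N :=
      div_le_div_of_nonneg_left (Real.sqrt_nonneg _) hg0 hg1
    have h7 : Real.sqrt N / (N : ℝ) ^ δ = (N : ℝ) ^ (1 / 2 - δ : ℝ) := by
      rw [Real.sqrt_eq_rpow, Real.rpow_sub hNpos]
    rw [← h7]
    exact h6.trans (h3.trans (mul_le_mul_of_nonneg_left hcount hC'.le))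
  have e2 : (N : ℝ) ^ (1 / 2 - 2 * δ : ℝ) ≤ C' * count (A ∩ S) N := by
    have h6 : (N : ℝ) ^ (1 / 2 - 2 * δ : ℝ) = (N : ℝ) ^ (-δ) * (N : ℝ) ^ (1 / 2 - δ : ℝ) := by
      rw [← Real.rpow_add hNpos]; congr 1; ring
    rw [h6]
    calc (N : ℝ) ^ (-δ) * (N : ℝ) ^ (1 / 2 - δ : ℝ) ≤ (N : ℝ) ^ (-δ) * (C' * count A N) :=
          mul_le_mul_of_nonneg_left e1 (by positivity)
      _ = C' * ((N : ℝ) ^ (-δ) * count A N) := by ring
      _ ≤ _ := mul_le_mul_of_nonneg_left h2 hC'.le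
  have e3 : (K : ℝ) ≤ (R + 4) * (N : ℝ) ^ δ := by
    have h6 : ((⌊((2 * N : ℕ) : ℝ) ^ δ⌋₊ : ℕ) : ℝ) ≤ ((2 * N : ℕ) : ℝ) ^ δ :=
      Nat.floor_le (by positivity)
    have h7 : ((2 * N : ℕ) : ℝ) ^ δ ≤ 2 * (N : ℝ) ^ δ := by
      push_cast
      rw [Real.mul_rpow (by norm_num) hNpos.le]
      refine mul_le_mul_of_nonneg_right ?_ (by positivity)
      calc (2 : ℝ) ^ δ ≤ 2 ^ (1 : ℝ) := Real.rpow_le_rpow_of_exponent_le (by norm_num) (by linarith)
        _ = 2 := Real.rpow_one 2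
    have h8 : (1 : ℝ) ≤ (N : ℝ) ^ δ := Real.one_le_rpow hN1r hd0.le
    have h9 : (0 : ℝ) ≤ R := Nat.cast_nonneg R
    rw [hK]
    push_cast at h6 h7 ⊢
    nlinarith
  have e4 : (N : ℝ) ^ (-δ₀) * count S N + (N : ℝ) ^ (1 / 8 : ℝ) ≤
      2 * (N : ℝ) ^ (1 / 2 - 4 * δ : ℝ) := by
    have h6 : (N : ℝ) ^ (-δ₀) * count S N ≤ (N : ℝ) ^ (1 / 2 - 4 * δ : ℝ) := by
      calc (N : ℝ) ^ (-δ₀) * count S N ≤ (N : ℝ) ^ (-δ₀) * (N : ℝ) ^ (1 / 2 + δ : ℝ) :=
            mul_le_mul_of_nonneg_left h1 (by positivity)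
        _ = (N : ℝ) ^ (-δ₀ + (1 / 2 + δ) : ℝ) := (Real.rpow_add hNpos _ _).symm
        _ ≤ _ := Real.rpow_le_rpow_of_exponent_le hN1r (by linarith)
    have h7 : (N : ℝ) ^ (1 / 8 : ℝ) ≤ (N : ℝ) ^ (1 / 2 - 4 * δ : ℝ) :=
      Real.rpow_le_rpow_of_exponent_le hN1r (by linarith)
    linarith
  have hX : (0 : ℝ) < (N : ℝ) ^ (1 / 2 - 3 * δ : ℝ) := Real.rpow_pos_of_pos hNpos _
  have e5 : (N : ℝ) ^ (1 / 2 - 2 * δ : ℝ) ≤
      2 * (C' * C * (R + 4)) * (N : ℝ) ^ (1 / 2 - 3 * δ : ℝ) := by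
    have h6 : (N : ℝ) ^ (1 / 2 - 3 * δ : ℝ) = (N : ℝ) ^ δ * (N : ℝ) ^ (1 / 2 - 4 * δ : ℝ) := by
      rw [← Real.rpow_add hNpos]; congr 1; ring
    have hK0 : (0 : ℝ) ≤ K := Nat.cast_nonneg K
    calc (N : ℝ) ^ (1 / 2 - 2 * δ : ℝ) ≤ C' * count (A ∩ S) N := e2
      _ ≤ C' * (C * K * (2 * (N : ℝ) ^ (1 / 2 - 4 * δ : ℝ))) := by
          refine mul_le_mul_of_nonneg_left (h5.trans ?_) hC'.le
          exact mul_le_mul_of_nonneg_left e4 (by positivity)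
      _ ≤ C' * (C * ((R + 4) * (N : ℝ) ^ δ) * (2 * (N : ℝ) ^ (1 / 2 - 4 * δ : ℝ))) := by
          refine mul_le_mul_of_nonneg_left ?_ hC'.le
          refine mul_le_mul_of_nonneg_right ?_ (by positivity)
          exact mul_le_mul_of_nonneg_left e3 hC.le
      _ = 2 * (C' * C * (R + 4)) * (N : ℝ) ^ (1 / 2 - 3 * δ : ℝ) := by rw [h6]; ring
  have e6 : (N : ℝ) ^ (1 / 2 - 2 * δ : ℝ) = (N : ℝ) ^ δ * (N : ℝ) ^ (1 / 2 - 3 * δ : ℝ) := by
    rw [← Real.rpow_add hNpos]; congr 1; ring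
  rw [e6] at e5
  have e7 : (N : ℝ) ^ δ ≤ 2 * (C' * C * (R + 4)) := le_of_mul_le_mul_right e5 hX
  linarith

/-- **Thresholds for sets with many elements in a thin automatic set.** -/
theorem result (b w : ℕ) (hb : 2 ≤ b) : ∃ δ : ℝ, 0 < δ ∧ ∀ g : ℕ → ℝ,
    (∀ᶠ N : ℕ in atTop, 0 < g N ∧ g N ≤ (N : ℝ) ^ δ) →
      ForcesIn (Hosted b w δ) g ∧
      ∀ A : Set ℕ, Hosted b w δ A → Dense g A → ∀ M : ℕ, ∃ n ≥ M, (n : ℝ) ^ δ ≤ rep A n := by
  obtain ⟨δ, hδ, H⟩ := strong b w hb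
  refine ⟨δ, hδ, fun g hg => ⟨fun A hA hD K => ?_, H g hg⟩⟩
  have h1 : Tendsto (fun n : ℕ => (n : ℝ) ^ δ) atTop atTop :=
    (tendsto_rpow_atTop hδ).comp tendsto_natCast_atTop_atTop
  obtain ⟨N₁, hN₁⟩ := eventually_atTop.1 (h1.eventually_gt_atTop (K : ℝ))
  obtain ⟨n, hn, h2⟩ := H g hg A hA hD N₁
  exact ⟨n, by exact_mod_cast (hN₁ n hn).trans_le h2⟩

end Pool.Agent.Results.MP_491344_nt.AutomaticHostThresholds
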