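import Pool.Agent.Results.MP_12a1af_nt.DigitsOfElements

/-!
# MP_491344_nt: thresholds for sets whose elements have unusual digits

`rep A n` is the number of ordered pairs of elements of `A` with sum `n`. Fix a base `b`, a length `l`
and a tolerance `η > 0`. For a pattern `z = (z_0, z_1, …)` of blocks of `l` digits call `a` typical
(for `z`) if the proportion of the positions `i` at which the block of `l` digits of `a` is `z_i`
differs from `b ^ (-l)` by at most `η`.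

There is `δ > 0`, depending on `b`, `l` and `η` only, with the following property. Consider the class
(`Unusual b l η δ`) of all sets `A` such that, for arbitrarily large `N`, there is a pattern `z` (which
may depend on `N`) for which at least the proportion `N ^ (-δ)` of the elements of `A` up to `N` are
not typical; for instance all sets of which a positive proportion of the elements omits a digit, or
a block of digits.

1. Every `g` with `0 < g(N) ≤ N ^ δ` for all large `N` forces unbounded representations inside this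
   class.
2. Even `r_A(n) ≥ n ^ δ` for infinitely many `n`, for every `A` in the class with
   `|A ∩ [1, N]| ≫ √N / g(N)`.
-/

set_option autoImplicit false

open Filter

namespace Pool.Agent.Results.MP_491344_nt.DigitThresholds

/-- `r_A(n)`: the number of ordered pairs of elements of `A` with sum `n` -/
noncomputable def rep (A : Set ℕ) (n : ℕ) : ℕ :=
  {p : ℕ × ℕ | p.1 ∈ A ∧ p.2 ∈ A ∧ p.1 + p.2 = n}.ncard

/-- `|A ∩ [1, N]| ≫ √N / g(N)` -/
def Dense (g : ℕ → ℝ) (A : Set ℕ) : Prop :=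
  ∃ C : ℝ, 0 < C ∧ ∀ᶠ N : ℕ in atTop,
    Real.sqrt (N : ℝ) / g N ≤ C * ((A ∩ Set.Icc 1 N).ncard : ℝ)

/-- `g` forces unbounded representations inside the class `𝒞` -/
def ForcesIn (𝒞 : Set ℕ → Prop) (g : ℕ → ℝ) : Prop :=
  ∀ A : Set ℕ, 𝒞 A → Dense g A → ∀ K : ℕ, ∃ n, K < rep A n

/-- `count S N`: the number of elements of `S` up to `N`. -/
noncomputable def count (S : Set ℕ) (N : ℕ) : ℕ := {x : ℕ | x ∈ S ∧ x ≤ N}.ncard

/-- The number of the positions `i`, less than the number of digits of `a` in base `b`, at which the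
block `⌊a / b ^ i⌋ mod b ^ l` of `l` digits of `a` is `z i`. -/
def agreements (b l : ℕ) (z : ℕ → ℕ) (a : ℕ) : ℕ :=
  ((Finset.range (Nat.digits b a).length).filter fun i => a / b ^ i % b ^ l = z i).card

/-- The proportion of the positions at which the block of `l` digits of `a` is `z i` differs from
`b ^ (-l)` by at most `η`. -/
def Typical (b l : ℕ) (z : ℕ → ℕ) (η : ℝ) (a : ℕ) : Prop :=
  |(agreements b l z a : ℝ) / (Nat.digits b a).length - 1 / (b : ℝ) ^ l| ≤ η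

/-- for arbitrarily large `N` at least the proportion `N ^ (-δ)` of the elements of `A` up to `N` is
not typical for some pattern `z` of blocks of `l` digits -/
def Unusual (b l : ℕ) (η δ : ℝ) (A : Set ℕ) : Prop :=
  ∃ᶠ N : ℕ in atTop, ∃ z : ℕ → ℕ, (∀ i, z i < b ^ l) ∧
    (N : ℝ) ^ (-δ) * count A N ≤ count {a | a ∈ A ∧ ¬ Typical b l z η a} N

theorem strong (b l : ℕ) (hb : 2 ≤ b) (η : ℝ) (hη : 0 < η) : ∃ δ : ℝ, 0 < δ ∧ ∀ g : ℕ → ℝ,
    (∀ᶠ N : ℕ in atTop, 0 < g N ∧ g N ≤ (N : ℝ) ^ δ) → ∀ A : Set ℕ, Unusual b l η δ A → Dense g A →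
      ∀ M : ℕ, ∃ n ≥ M, (n : ℝ) ^ δ ≤ rep A n := by
  obtain ⟨δ₀, hδ₀, C, hC, H⟩ :=
    (Pool.Agent.Results.MP_12a1af_nt.DigitsOfElements.result b l hb η hη).1
  set δ := min δ₀ 1 / 16 with hδ
  have hm0 : 0 < min δ₀ 1 := lt_min hδ₀ one_pos
  have hd0 : 0 < δ := by positivity
  have hd1 : 16 * δ ≤ δ₀ := by rw [hδ]; have := min_le_left δ₀ 1; linarith
  have hd2 : 16 * δ ≤ 1 := by rw [hδ]; have := min_le_right δ₀ 1; linarith
  refine ⟨δ, hd0, ?_⟩
  rintro g hg A hfr ⟨C', hC', hdense⟩ M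
  by_contra hcon
  push Not at hcon
  -- a bound for all values
  obtain ⟨R, hR⟩ : ∃ R : ℕ, ∀ n < M, rep A n ≤ R := by
    refine ⟨∑ n ∈ Finset.range M, rep A n, fun n hn => ?_⟩
    exact Finset.single_le_sum (f := fun n => rep A n) (fun _ _ => Nat.zero_le _)
      (Finset.mem_range.2 hn)
  have ht : Tendsto (fun N : ℕ => (N : ℝ) ^ δ) atTop atTop :=
    (tendsto_rpow_atTop hd0).comp tendsto_natCast_atTop_atTop
  obtain ⟨N, ⟨z, hz, h2⟩, ⟨hg0, hg1⟩, h3, h4, hN1⟩ :=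
    (Frequently.and_eventually hfr (hg.and (hdense.and ((ht.eventually_ge_atTop
      (C' ^ 2 * C * (R + 4) + 1)).and (eventually_ge_atTop 1))))).exists
  have hNpos : (0 : ℝ) < N := by exact_mod_cast hN1
  have hN1r : (1 : ℝ) ≤ N := by exact_mod_cast hN1
  set K := ⌊((2 * N : ℕ) : ℝ) ^ δ⌋₊ + R with hK
  have hrep : ∀ n ≤ 2 * N, Pool.Agent.Results.MP_12a1af_nt.DigitsOfElements.rep A n ≤ K := by
    intro n hn
    change rep A n ≤ K
    by_cases hnM : n < M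
    · exact (hR n hnM).trans (by omega)
    · have h5 := (hcon n (by omega)).le
      have h6 : (n : ℝ) ^ δ ≤ ((2 * N : ℕ) : ℝ) ^ δ :=
        Real.rpow_le_rpow (Nat.cast_nonneg n) (by exact_mod_cast hn) hd0.le
      have h7 : rep A n ≤ ⌊((2 * N : ℕ) : ℝ) ^ δ⌋₊ := Nat.le_floor (h5.trans h6)
      omega
  have h5 := H z A K N hz hN1 hrep
  change (count {a | a ∈ A ∧ ¬ Typical b l z η a} N : ℝ) ^ 2 ≤ C * K * (N : ℝ) ^ (1 - δ₀) at h5
  set U := (count {a | a ∈ A ∧ ¬ Typical b l z η a} N : ℝ) with hU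
  have hU0 : 0 ≤ U := Nat.cast_nonneg _
  -- the number of elements of `A`
  have hcount : ((A ∩ Set.Icc 1 N).ncard : ℝ) ≤ count A N := by
    have : (A ∩ Set.Icc 1 N).ncard ≤ count A N := by
      refine Set.ncard_le_ncard ?_ ((Set.finite_Iic N).subset fun x hx => hx.2)
      rintro x ⟨hx1, hx2⟩
      exact ⟨hx1, hx2.2⟩
    exact_mod_cast this
  have e1 : (N : ℝ) ^ (1 / 2 - δ : ℝ) ≤ C' * count A N := by
    have h6 : Real.sqrt N / (N : ℝ) ^ δ ≤ Real.sqrt N / g N :=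
      div_le_div_of_nonneg_left (Real.sqrt_nonneg _) hg0 hg1
    have h7 : Real.sqrt N / (N : ℝ) ^ δ = (N : ℝ) ^ (1 / 2 - δ : ℝ) := by
      rw [Real.sqrt_eq_rpow, Real.rpow_sub hNpos]
    rw [← h7]
    exact h6.trans (h3.trans (mul_le_mul_of_nonneg_left hcount hC'.le))
  have e2 : (N : ℝ) ^ (1 / 2 - 2 * δ : ℝ) ≤ C' * U := by
    have h6 : (N : ℝ) ^ (1 / 2 - 2 * δ : ℝ) = (N : ℝ) ^ (-δ) * (N : ℝ) ^ (1 / 2 - δ : ℝ) := by
      rw [← Real.rpow_add hNpos]; congr 1; ring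
    rw [h6]
    calc (N : ℝ) ^ (-δ) * (N : ℝ) ^ (1 / 2 - δ : ℝ) ≤ (N : ℝ) ^ (-δ) * (C' * count A N) :=
          mul_le_mul_of_nonneg_left e1 (by positivity)
      _ = C' * ((N : ℝ) ^ (-δ) * count A N) := by ring
      _ ≤ _ := mul_le_mul_of_nonneg_left h2 hC'.le
  have e3 : (K : ℝ) ≤ (R + 4) * (N : ℝ) ^ δ := by
    have h6 : ((⌊((2 * N : ℕ) : ℝ) ^ δ⌋₊ : ℕ) : ℝ) ≤ ((2 * N : ℕ) : ℝ) ^ δ :=
      Nat.floor_le (by positivity)
    have h7 : ((2 * N : ℕ) : ℝ) ^ δ ≤ 2 * (N : ℝ) ^ δ := by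
      push_cast
      rw [Real.mul_rpow (by norm_num) hNpos.le]
      refine mul_le_mul_of_nonneg_right ?_ (by positivity)
      calc (2 : ℝ) ^ δ ≤ 2 ^ (1 : ℝ) := Real.rpow_le_rpow_of_exponent_le (by norm_num) (by linarith)
        _ = 2 := Real.rpow_one 2
    have h8 : (1 : ℝ) ≤ (N : ℝ) ^ δ := Real.one_le_rpow hN1r hd0.le
    have h9 : (0 : ℝ) ≤ R := Nat.cast_nonneg R
    rw [hK]
    push_cast at h6 h7 ⊢
    nlinarith
  have hX : (0 : ℝ) < (N : ℝ) ^ (1 - 5 * δ : ℝ) := Real.rpow_pos_of_pos hNpos _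
  have e4 : (N : ℝ) ^ (1 - 4 * δ : ℝ) ≤ C' ^ 2 * C * (R + 4) * (N : ℝ) ^ (1 - 5 * δ : ℝ) := by
    have h6 : (N : ℝ) ^ (1 - 4 * δ : ℝ) = ((N : ℝ) ^ (1 / 2 - 2 * δ : ℝ)) ^ 2 := by
      rw [sq, ← Real.rpow_add hNpos]; congr 1; ring
    have h7 : (N : ℝ) ^ δ * (N : ℝ) ^ (1 - δ₀ : ℝ) ≤ (N : ℝ) ^ (1 - 5 * δ : ℝ) := by
      rw [← Real.rpow_add hNpos]
      exact Real.rpow_le_rpow_of_exponent_le hN1r (by linarith)
    rw [h6]
    calc ((N : ℝ) ^ (1 / 2 - 2 * δ : ℝ)) ^ 2 ≤ (C' * U) ^ 2 :=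
          pow_le_pow_left₀ (by positivity) e2 2
      _ = C' ^ 2 * U ^ 2 := by ring
      _ ≤ C' ^ 2 * (C * K * (N : ℝ) ^ (1 - δ₀)) := mul_le_mul_of_nonneg_left h5 (by positivity)
      _ ≤ C' ^ 2 * (C * ((R + 4) * (N : ℝ) ^ δ) * (N : ℝ) ^ (1 - δ₀)) := by
          refine mul_le_mul_of_nonneg_left ?_ (by positivity)
          refine mul_le_mul_of_nonneg_right ?_ (by positivity)
          exact mul_le_mul_of_nonneg_left e3 hC.le
      _ = C' ^ 2 * C * (R + 4) * ((N : ℝ) ^ δ * (N : ℝ) ^ (1 - δ₀ : ℝ)) := by ring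
      _ ≤ _ := mul_le_mul_of_nonneg_left h7 (by positivity)
  have e6 : (N : ℝ) ^ (1 - 4 * δ : ℝ) = (N : ℝ) ^ δ * (N : ℝ) ^ (1 - 5 * δ : ℝ) := by
    rw [← Real.rpow_add hNpos]; congr 1; ring
  rw [e6] at e4
  have e7 : (N : ℝ) ^ δ ≤ C' ^ 2 * C * (R + 4) := le_of_mul_le_mul_right e4 hX
  linarith

/-- **Thresholds for sets whose elements have unusual digits.** -/
theorem result (b l : ℕ) (hb : 2 ≤ b) (η : ℝ) (hη : 0 < η) : ∃ δ : ℝ, 0 < δ ∧ ∀ g : ℕ → ℝ,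
    (∀ᶠ N : ℕ in atTop, 0 < g N ∧ g N ≤ (N : ℝ) ^ δ) →
      ForcesIn (Unusual b l η δ) g ∧
      ∀ A : Set ℕ, Unusual b l η δ A → Dense g A → ∀ M : ℕ, ∃ n ≥ M, (n : ℝ) ^ δ ≤ rep A n := by
  obtain ⟨δ, hδ, H⟩ := strong b l hb η hη
  refine ⟨δ, hδ, fun g hg => ⟨fun A hA hD K => ?_, H g hg⟩⟩
  have h1 : Tendsto (fun n : ℕ => (n : ℝ) ^ δ) atTop atTop :=
    (tendsto_rpow_atTop hδ).comp tendsto_natCast_atTop_atTop
  obtain ⟨N₁, hN₁⟩ := eventually_atTop.1 (h1.eventually_gt_atTop (K : ℝ))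
  obtain ⟨n, hn, h2⟩ := H g hg A hA hD N₁
  exact ⟨n, by exact_mod_cast (hN₁ n hn).trans_le h2⟩

end Pool.Agent.Results.MP_491344_nt.DigitThresholds
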