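import Pool.Agent.Results.MP_12a1af_nt.NearSquares

/-!
# MP_491344_nt: thresholds for sets near the squares

`rep A n` is the number of ordered pairs of elements of `A` with sum `n`, and
`psi x = log x / log log x`. Let `F` be a finite set of positive reals. A set `A` of natural numbers
is *near the squares* (`NearSquares F A`) if every `a ∈ A` lies within `exp (√(psi a) / 200)` of
`α n²` for some `α ∈ F` and some natural `n`.

1. Every `g` with `0 < g(N) ≤ exp (√(psi N) / 800)` for all large `N` forces unbounded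
   representations inside the class of the sets near the squares.
2. If `B` is any set and `A ⊆ B` is near the squares with `√N / g(N) ≤ C |A ∩ [1, N]|` for some `C`
   and arbitrarily large `N`, then `r_B(s) ≥ exp (√(psi s) / 200)` for infinitely many `s`.

So inside this class there are forcing functions which grow faster than every power of `log N`.
-/

set_option autoImplicit false

open Filter Real

namespace Pool.Agent.Results.MP_491344_nt.NearSquareThresholds

/-- `r_A(n)`: the number of ordered pairs of elements of `A` with sum `n` -/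
noncomputable def rep (A : Set ℕ) (n : ℕ) : ℕ :=
  {p : ℕ × ℕ | p.1 ∈ A ∧ p.2 ∈ A ∧ p.1 + p.2 = n}.ncard

/-- `|A ∩ [1, N]| ≫ √N / g(N)` -/
def Dense (g : ℕ → ℝ) (A : Set ℕ) : Prop :=
  ∃ C : ℝ, 0 < C ∧ ∀ᶠ N : ℕ in atTop,
    Real.sqrt (N : ℝ) / g N ≤ C * ((A ∩ Set.Icc 1 N).ncard : ℝ)

/-- `g` forces unbounded representations inside the class `𝒞` -/
def ForcesIn (𝒞 : Set ℕ → Prop) (g : ℕ → ℝ) : Prop :=
  ∀ A : Set ℕ, 𝒞 A → Dense g A → ∀ K : ℕ, ∃ n, K < rep A n

/-- `log x / log log x`. -/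
noncomputable def psi (x : ℝ) : ℝ := log x / log (log x)

/-- every element `a` of `A` lies within `exp (√(psi a) / 200)` of `α n²` for some `α ∈ F` -/
def NearSquares (F : Finset ℝ) (A : Set ℕ) : Prop :=
  ∀ a ∈ A, ∃ α ∈ F, ∃ n : ℕ, |(a : ℝ) - α * n ^ 2| ≤ exp (1 / 200 * sqrt (psi a))

lemma rep_mono {S B : Set ℕ} (h : S ⊆ B) (n : ℕ) : rep S n ≤ rep B n := by
  refine Set.ncard_le_ncard ?_ ?_
  · rintro p ⟨h1, h2, h3⟩
    exact ⟨h h1, h h2, h3⟩
  · refine ((Set.finite_Iic n).prod (Set.finite_Iic n)).subset ?_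
    rintro ⟨x, y⟩ ⟨-, -, h3⟩
    simp only at h3
    exact Set.mk_mem_prod (Set.mem_Iic.2 (by omega)) (Set.mem_Iic.2 (by omega))

lemma psi_tend : Tendsto (fun N : ℕ => psi N) atTop atTop := by
  have hlogX : Tendsto (fun X : ℕ => log (X : ℝ)) atTop atTop :=
    tendsto_log_atTop.comp tendsto_natCast_atTop_atTop
  exact Pool.Agent.H397R2.NS.psi_tendsto.comp hlogX

theorem strong (F : Finset ℝ) (hF : ∀ α ∈ F, 0 < α) (g : ℕ → ℝ)
    (hg : ∀ᶠ N : ℕ in atTop, 0 < g N ∧ g N ≤ exp (1 / 800 * sqrt (psi N)))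
    (A B : Set ℕ) (hA : NearSquares F A) (hAB : A ⊆ B) (C : ℝ)
    (hC : ∃ᶠ N : ℕ in atTop, Real.sqrt (N : ℝ) / g N ≤ C * ((A ∩ Set.Icc 1 N).ncard : ℝ)) :
    ∃ᶠ s : ℕ in atTop, exp (1 / 200 * sqrt (psi s)) ≤ rep B s := by
  classical
  have hlogX : Tendsto (fun X : ℕ => log (X : ℝ)) atTop atTop :=
    tendsto_log_atTop.comp tendsto_natCast_atTop_atTop
  have hsq : Tendsto (fun N : ℕ => sqrt (psi N)) atTop atTop := tendsto_sqrt_atTop.comp psi_tend
  set C' := |C| + 1 with hC'
  have hC1 : 1 ≤ C' := by have := abs_nonneg C; linarith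
  have hCC : C ≤ C' := by have := le_abs_self C; linarith
  -- what happens at a large good `N`
  have key : ∀ n₀ : ℕ, ∃ n ≥ n₀, 1 ≤ n ∧ n₀ ≤ n ∧ ∃ N : ℕ, n ≤ (A ∩ Set.Icc 1 N).ncard ∧
      (N : ℝ) ≤ n ^ 2 * exp (1 / 200 * sqrt (psi n)) := by
    intro n₀
    have e1 : ∀ᶠ N : ℕ in atTop, 12 * log C' ≤ log N := hlogX.eventually_ge_atTop _
    have e2 : ∀ᶠ N : ℕ in atTop, (16 : ℝ) ≤ log N := hlogX.eventually_ge_atTop _
    have e3 : ∀ᶠ N : ℕ in atTop, 3 * log (n₀ + 1) ≤ log N := hlogX.eventually_ge_atTop _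
    have e4 : ∀ᶠ N : ℕ in atTop, 2 * log C' * 4000 ≤ sqrt (psi N) := hsq.eventually_ge_atTop _
    have e5 : ∀ᶠ N : ℕ in atTop, (48 : ℝ) ≤ log N := hlogX.eventually_ge_atTop _
    obtain ⟨N, hN, ⟨hg0, hg1⟩, h1, h2, h3, h4, h5, hN1⟩ :=
      (hC.and_eventually (hg.and (e1.and (e2.and (e3.and (e4.and (e5.and
        (eventually_ge_atTop 1)))))))).exists
    set n := (A ∩ Set.Icc 1 N).ncard with hn
    have hNpos : (0 : ℝ) < N := by exact_mod_cast hN1
    have hC0 : (0 : ℝ) < C' := by linarith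
    have hnn : (0 : ℝ) ≤ n := Nat.cast_nonneg n
    have h6 : sqrt (N : ℝ) ≤ C' * n * g N := by
      rw [div_le_iff₀ hg0] at hN
      refine hN.trans (mul_le_mul_of_nonneg_right (mul_le_mul_of_nonneg_right hCC hnn) hg0.le)
    have hsqN : 0 < sqrt (N : ℝ) := Real.sqrt_pos.2 hNpos
    have hnpos : (0 : ℝ) < n := by
      rcases hnn.eq_or_lt with h | h
      · rw [← h] at h6
        simp at h6
        linarith
      · exact h
    have hn1 : 1 ≤ n := by exact_mod_cast hnpos
    -- logarithms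
    have hll : (1 : ℝ) ≤ log (log N) := by
      have h7 : exp 1 ≤ log (N : ℝ) := by
        have := Real.exp_one_lt_d9; linarith
      calc (1 : ℝ) = log (exp 1) := (Real.log_exp 1).symm
        _ ≤ _ := log_le_log (exp_pos 1) h7
    have hpsiN : psi N ≤ log N := by
      unfold psi
      exact div_le_self (by linarith) hll
    have hpsi0 : 0 ≤ psi N := by unfold psi; exact div_nonneg (by linarith) (by linarith)
    have hsl : sqrt (psi N) ≤ log N := by
      calc sqrt (psi N) ≤ sqrt (log N) := Real.sqrt_le_sqrt hpsiN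
        _ ≤ log N := by
          rw [Real.sqrt_le_left (by linarith)]
          nlinarith
    have hlogg : log (g N) ≤ 1 / 800 * sqrt (psi N) := by
      have := log_le_log hg0 hg1
      rwa [log_exp] at this
    have h7 : 1 / 2 * log N ≤ log C' + log n + log (g N) := by
      have h8 := log_le_log hsqN h6
      rw [log_mul (by positivity) (by positivity), log_mul (by positivity) (by positivity),
        Real.log_sqrt hNpos.le] at h8
      linarith
    have h8 : 1 / 3 * log N ≤ log n := by linarith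
    have hn0 : n₀ + 1 ≤ n := by
      have h9 : log ((n₀ : ℝ) + 1) ≤ log n := by linarith
      have h10 : (n₀ : ℝ) + 1 ≤ n := (log_le_log_iff (by positivity) hnpos).1 h9
      exact_mod_cast h10
    have hnN : n ≤ N := by
      have h9 : (A ∩ Set.Icc 1 N).ncard ≤ (Set.Icc 1 N).ncard :=
        Set.ncard_le_ncard Set.inter_subset_right (Set.finite_Icc 1 N)
      have h10 : (Set.Icc 1 N).ncard = N := by
        rw [← Finset.coe_Icc, Set.ncard_coe_finset, Nat.card_Icc]; omega
      omega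
    have h9 : 1 / 3 * psi N ≤ psi n := by
      have h10 : log (log (n : ℝ)) ≤ log (log N) := by
        refine log_le_log (by linarith) ?_
        exact log_le_log hnpos (by exact_mod_cast hnN)
      have h11 : 0 < log (log (n : ℝ)) := by
        refine Real.log_pos ?_
        linarith
      unfold psi
      rw [← mul_div_assoc]
      calc 1 / 3 * log N / log (log N) ≤ log n / log (log N) :=
            div_le_div_of_nonneg_right h8 (by linarith)
        _ ≤ log n / log (log n) :=
            div_le_div_of_nonneg_left (by linarith) h11 h10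
    have h10 : 11 / 20 * sqrt (psi N) ≤ sqrt (psi n) := by
      have h11 : 11 / 20 * sqrt (psi N) = sqrt ((11 / 20) ^ 2 * psi N) := by
        rw [Real.sqrt_mul (by positivity), Real.sqrt_sq (by norm_num)]
      rw [h11]
      refine Real.sqrt_le_sqrt ?_
      nlinarith
    refine ⟨n, by omega, hn1, by omega, N, le_rfl, ?_⟩
    have h11 : (N : ℝ) ≤ (C' * n * g N) ^ 2 := by
      calc (N : ℝ) = sqrt N ^ 2 := (Real.sq_sqrt hNpos.le).symm
        _ ≤ _ := pow_le_pow_left₀ hsqN.le h6 2
    have h12 : (C' * n * g N) ^ 2 = n ^ 2 * exp (2 * log C' + 2 * log (g N)) := by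
      rw [Real.exp_add, mul_comm 2 (log C'), mul_comm 2 (log (g N)), Real.exp_mul, Real.exp_mul,
        Real.exp_log hC0, Real.exp_log hg0]
      norm_num
      ring
    rw [h12] at h11
    refine h11.trans (mul_le_mul_of_nonneg_left (exp_le_exp.2 ?_) (by positivity))
    linarith
  -- `A` is infinite
  have hinf : A.Infinite := by
    intro hfin
    obtain ⟨n, hn, -, -, N, h1, -⟩ := key (A.ncard + 1)
    have h2 : (A ∩ Set.Icc 1 N).ncard ≤ A.ncard := Set.ncard_le_ncard Set.inter_subset_left hfin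
    omega
  have hgrow : ∃ᶠ n : ℕ in atTop,
      (Nat.nth (· ∈ A) (n - 1) : ℝ) ≤ n ^ 2 * exp (1 / 200 * sqrt (psi n)) := by
    rw [frequently_atTop]
    intro n₀
    obtain ⟨n, hn, hn1, -, N, h1, h2⟩ := key n₀
    refine ⟨n, hn, le_trans ?_ h2⟩
    have h3 : Nat.nth (· ∈ A) (n - 1) < N + 1 := by
      refine Nat.nth_lt_of_lt_count ?_
      have h4 : (A ∩ Set.Icc 1 N).ncard ≤ Nat.count (· ∈ A) (N + 1) := by
        rw [Nat.count_eq_card_filter_range, ← Set.ncard_coe_finset]
        refine Set.ncard_le_ncard ?_ (Finset.finite_toSet _)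
        rintro x ⟨hx1, hx2⟩
        rw [Finset.mem_coe, Finset.mem_filter, Finset.mem_range]
        exact ⟨by have := hx2.2; omega, hx1⟩
      omega
    have h4 : Nat.nth (· ∈ A) (n - 1) ≤ N := by omega
    exact_mod_cast h4
  have hres := Pool.Agent.Results.MP_12a1af_nt.NearSquares.result F hF A hinf hA hgrow
  refine hres.mono fun s hs => hs.trans ?_
  exact_mod_cast rep_mono hAB s

/-- **Thresholds inside the sets near the squares.** -/
theorem result (F : Finset ℝ) (hF : ∀ α ∈ F, 0 < α) (g : ℕ → ℝ)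
    (hg : ∀ᶠ N : ℕ in atTop, 0 < g N ∧ g N ≤ exp (1 / 800 * sqrt (psi N))) :
    ForcesIn (NearSquares F) g ∧
    (∀ A B : Set ℕ, NearSquares F A → A ⊆ B → ∀ C : ℝ,
      (∃ᶠ N : ℕ in atTop, Real.sqrt (N : ℝ) / g N ≤ C * ((A ∩ Set.Icc 1 N).ncard : ℝ)) →
      ∃ᶠ s : ℕ in atTop, exp (1 / 200 * sqrt (psi s)) ≤ rep B s) := by
  refine ⟨?_, fun A B hA hAB C hC => strong F hF g hg A B hA hAB C hC⟩
  rintro A hA ⟨C, hC0, hC⟩ K
  have h := strong F hF g hg A A hA (le_refl A) C hC.frequently
  have hsq : Tendsto (fun N : ℕ => sqrt (psi N)) atTop atTop := tendsto_sqrt_atTop.comp psi_tend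
  obtain ⟨s, hs, hs2⟩ := (h.and_eventually (hsq.eventually_ge_atTop (200 * K))).exists
  refine ⟨s, ?_⟩
  have h1 : (K : ℝ) < exp (1 / 200 * sqrt (psi s)) := by
    have h2 : (K : ℝ) ≤ 1 / 200 * sqrt (psi s) := by linarith
    have h3 := Real.add_one_le_exp (1 / 200 * sqrt (psi s))
    linarith
  exact_mod_cast h1.trans_le hs

end Pool.Agent.Results.MP_491344_nt.NearSquareThresholds
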